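import Pool.Agent.U167.SA.Stm5

/-! Project SA (helper167), package RATE: polynomial rate of convergence of the ratios. -/

set_option autoImplicit false

namespace Pool.Agent.U394.SA

open H974 Finset Filter Topology Pool.Agent.U167.SA

/-- the ratio converges with the rate given by the swapping inequality -/
theorem rate_abs {X Y : ℕ → ℝ} {θ θ' α : ℝ} {T : ℕ} {l : ℝ} (hθ0 : 0 ≤ θ) (hθ1 : θ < 1)
    (hθθ : θ ≤ θ') (hα : (64 : ℝ) ^ (-α) = θ') (hα0 : 0 < α)
    (hsw : ∀ K n1 n2 : ℕ, T * 64 ^ K < n1 → T * 64 ^ K < n2 →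
      X n1 * Y n2 ≤ X n2 * Y n1 + θ ^ K * (X n1 * Y n2))
    (hX0 : ∀ n, 0 ≤ X n) (hY : ∀ᶠ n in atTop, 0 < Y n)
    (hT : Tendsto (fun n => X n / Y n) atTop (𝓝 l)) (hl : 0 ≤ l) :
    ∃ C : ℝ, ∀ᶠ n : ℕ in atTop, |X n / Y n - l| ≤ C * (n : ℝ) ^ (-α) := by
  obtain ⟨q, hq⟩ : ∃ q : ℕ, q = T + 1 := ⟨_, rfl⟩
  have hq0 : 0 < q := by omega
  refine ⟨(64 * q : ℝ) ^ α * (l / (1 - θ)), ?_⟩
  filter_upwards [hY, eventually_ge_atTop (64 * q)] with n hYn hn
  set K := Nat.log 64 (n / q) with hK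
  have hnq : 64 ≤ n / q := (Nat.le_div_iff_mul_le hq0).2 hn
  have hK1 : 1 ≤ K := by
    rw [hK]
    exact Nat.log_pos (by norm_num) hnq
  have h1 : 64 ^ K ≤ n / q := Nat.pow_log_le_self 64 (by omega)
  have h1' : 64 ^ K * q ≤ n := (Nat.le_div_iff_mul_le hq0).1 h1
  have h2 : n / q < 64 ^ (K + 1) := Nat.lt_pow_succ_log_self (by norm_num) _
  have h2' : n < 64 ^ (K + 1) * q := (Nat.div_lt_iff_lt_mul hq0).1 h2
  have hTK : T * 64 ^ K < n := by
    refine lt_of_lt_of_le ?_ h1'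
    rw [mul_comm]
    exact Nat.mul_lt_mul_of_pos_left (by omega) (by positivity)
  have hθK0 : 0 ≤ θ ^ K := pow_nonneg hθ0 K
  have hθK : θ ^ K ≤ θ := by
    calc θ ^ K ≤ θ ^ 1 := pow_le_pow_of_le_one hθ0 hθ1.le hK1
      _ = θ := pow_one θ
  have hlow : ∀ᶠ j in atTop, X n / Y n * (1 - θ ^ K) ≤ X j / Y j ∧
      X j / Y j * (1 - θ ^ K) ≤ X n / Y n := by
    filter_upwards [hY, eventually_gt_atTop (T * 64 ^ K)] with j hYj hj
    have e1 := hsw K n j hTK hj
    have e2 := hsw K j n hj hTK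
    constructor
    · rw [div_mul_eq_mul_div, div_le_div_iff₀ hYn hYj]
      nlinarith
    · rw [div_mul_eq_mul_div, div_le_div_iff₀ hYj hYn]
      nlinarith
  have hA : X n / Y n * (1 - θ ^ K) ≤ l := ge_of_tendsto hT (hlow.mono fun j hj => hj.1)
  have hB : l * (1 - θ ^ K) ≤ X n / Y n :=
    le_of_tendsto (hT.mul_const (1 - θ ^ K)) (hlow.mono fun j hj => hj.2)
  set ρ := X n / Y n with hρ
  have hρ0 : 0 ≤ ρ := div_nonneg (hX0 n) hYn.le
  have h1θ : 0 < 1 - θ := by linarith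
  have hρl : ρ ≤ l / (1 - θ) := by
    rw [le_div_iff₀ h1θ]
    calc ρ * (1 - θ) ≤ ρ * (1 - θ ^ K) := mul_le_mul_of_nonneg_left (by linarith) hρ0
      _ ≤ l := hA
  have hll : l ≤ l / (1 - θ) := by
    rw [le_div_iff₀ h1θ]
    nlinarith
  have habs : |ρ - l| ≤ θ ^ K * (l / (1 - θ)) := by
    rw [abs_le]
    constructor
    · have : θ ^ K * l ≤ θ ^ K * (l / (1 - θ)) := mul_le_mul_of_nonneg_left hll hθK0
      linarith
    · have : θ ^ K * ρ ≤ θ ^ K * (l / (1 - θ)) := mul_le_mul_of_nonneg_left hρl hθK0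
      linarith
  refine habs.trans ?_
  have hn0 : (0 : ℝ) < n := by
    have : 0 < n := by omega
    exact_mod_cast this
  have hpow : θ ^ K ≤ (64 * q : ℝ) ^ α * (n : ℝ) ^ (-α) := by
    calc θ ^ K ≤ θ' ^ K := pow_le_pow_left₀ hθ0 hθθ K
      _ = ((64 : ℝ) ^ K) ^ (-α) := by
          rw [← hα, ← Real.rpow_natCast, ← Real.rpow_mul (by norm_num), mul_comm,
            Real.rpow_mul (by norm_num), Real.rpow_natCast]
      _ ≤ ((n : ℝ) / (64 * q)) ^ (-α) := by
          refine Real.rpow_le_rpow_of_nonpos (by positivity) ?_ (by linarith)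
          rw [div_le_iff₀ (by positivity)]
          have h3 : (n : ℝ) < (64 : ℝ) ^ (K + 1) * q := by exact_mod_cast h2'
          rw [pow_succ] at h3
          nlinarith
      _ = (64 * q : ℝ) ^ α * (n : ℝ) ^ (-α) := by
          rw [Real.div_rpow hn0.le (by positivity), Real.rpow_neg (by positivity : (0:ℝ) ≤ 64 * q),
            div_inv_eq_mul, mul_comm]
  calc θ ^ K * (l / (1 - θ)) ≤ ((64 * q : ℝ) ^ α * (n : ℝ) ^ (-α)) * (l / (1 - θ)) :=
        mul_le_mul_of_nonneg_right hpow (div_nonneg hl h1θ.le)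
    _ = _ := by ring

theorem loc_self {G D : Set Edg} {m : ℕ} (h : ∀ e ∉ boxE m, (e ∈ G ↔ e ∈ D)) : loc m G D = G := by
  ext e
  by_cases he : e ∈ boxE m
  · exact loc_in he
  · exact (loc_out he).trans (h e he).symm

theorem t_RATE : RateStm := by
  intro D hSW hP hL
  have hSW' := hSW
  obtain ⟨m0, θ, ht0, ht1, hS⟩ := hSW'
  set θ' : ℝ := max θ (1/2) with hθ'
  have hθ'0 : 0 < θ' := lt_of_lt_of_le (by norm_num) (le_max_right _ _)
  have hθ'1 : θ' < 1 := max_lt ht1 (by norm_num)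
  set α : ℝ := -Real.logb 64 θ' with hα
  have hα0 : 0 < α := by
    rw [hα, neg_pos]
    exact Real.logb_neg (by norm_num) hθ'0 hθ'1
  have hα1 : (64 : ℝ) ^ (-α) = θ' := by
    rw [hα, neg_neg]
    exact Real.rpow_logb (by norm_num) (by norm_num) hθ'0
  refine ⟨α, hα0, ?_⟩
  intro G G' A A' m m' W W' hG hG' hA hA' hY'
  obtain ⟨m00, hR⟩ := RLG hSW hP
  obtain ⟨m2, hm2⟩ := hG
  obtain ⟨m2', hm2'⟩ := hG'
  obtain ⟨r, hr⟩ := hA
  obtain ⟨r', hr'⟩ := hA'
  obtain ⟨m1, hm1⟩ : ∃ m1 : ℕ, m1 = m0 + m00 + m2 + m2' + r + r' + m + m' + 1 := ⟨_, rfl⟩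
  set w : ℝ := (1/2 : ℝ)^(boxE m1).card with hw
  have hw0 : 0 < w := by positivity
  set Y : ℕ → ℝ := fun n => PPm m1 (boxE m1) (loc m1 Set.univ D) {v | inB m1 v} n with hY
  have hGl : loc m1 G D = G := loc_self fun e he => hm2 e fun h => he (boxE_mono (by omega) h)
  have hGl' : loc m1 G' D = G' := loc_self fun e he => hm2' e fun h => he (boxE_mono (by omega) h)
  -- representation
  have rep : ∀ (k : ℕ) (V : Finset Edg → Prop) (B : Set Vtx) (H : Set Edg),
      k ≤ m1 → loc m1 H D = H → ∃ S : Finset (Finset Edg),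
        (∀ η ∈ S, η ⊆ boxE m1) ∧ ∀ n : ℕ, PE k V H B n =
          ∑ η ∈ S, w * PPm m1 η (loc m1 H D) B n := by
    intro k V B H hk hH
    classical
    refine ⟨(boxE m1).powerset.filter (fun η => V (η ∩ boxE k)), fun η hη => ?_, fun n => ?_⟩
    · rw [Finset.mem_filter, Finset.mem_powerset] at hη
      exact hη.1
    · rw [PE_up hk, hH]
      have := hL m1 (fun η => V (η ∩ boxE k)) H B n
      unfold PE
      convert this using 2
  obtain ⟨T, hT1, hT2⟩ := rep m W A G (by omega) hGl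
  obtain ⟨T', hT1', hT2'⟩ := rep m' W' A' G' (by omega) hGl'
  have hA1 : ∀ v ∈ A, inB m1 v := fun v hv => Pool.Agent.U167.SA.inB_mono (by omega) (hr v hv)
  have hA1' : ∀ v ∈ A', inB m1 v := fun v hv => Pool.Agent.U167.SA.inB_mono (by omega) (hr' v hv)
  have hYpos : ∀ᶠ n in atTop, 0 < Y n := by
    filter_upwards [hY'] with n h1
    rw [hT2' n] at h1
    obtain ⟨η, hη, h3⟩ := Finset.exists_lt_of_sum_lt (s := T') (f := fun _ => (0:ℝ))
      (g := fun η => w * PPm m1 η (loc m1 G' D) A' n) (by simpa using h1)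
    have h4 : 0 < PPm m1 η (loc m1 G' D) A' n := by
      by_contra h5
      push Not at h5
      have : w * PPm m1 η (loc m1 G' D) A' n ≤ 0 :=
        mul_nonpos_of_nonneg_of_nonpos hw0.le h5
      exact absurd h3 (not_lt.mpr this)
    refine h4.trans_le (PPm_mono hP (hT1' η hη) ?_ hA1')
    rintro e (h | h)
    · exact Or.inl ⟨Set.mem_univ _, h.2⟩
    · exact Or.inr h
  have hO : ∀ R : ℕ, ∀ᶠ n : ℕ in atTop, (∀ e ∈ boxE R, (e ∈ D ↔ e ∈ D)) ∧ 2 * (R:ℤ) < (n : ℤ) := by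
    intro R
    filter_upwards [eventually_gt_atTop (2 * R)] with n hn
    exact ⟨fun _ _ => Iff.rfl, by exact_mod_cast hn⟩
  -- limits with rate
  have lim : ∀ (k : ℕ) (V : Finset Edg → Prop) (B : Set Vtx) (H : Set Edg)
      (S : Finset (Finset Edg)), (∀ v ∈ B, inB m1 v) → (∀ η ∈ S, η ⊆ boxE m1) →
      (∀ n : ℕ, PE k V H B n = ∑ η ∈ S, w * PPm m1 η (loc m1 H D) B n) →
      ∃ c C : ℝ, 0 ≤ c ∧ (∀ᶠ n : ℕ in atTop, |PE k V H B n / Y n - c| ≤ C * (n:ℝ)^(-α)) ∧
        ((∃ᶠ n : ℕ in atTop, 0 < PE k V H B n) → 0 < c) := by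
    intro k V B H S hB hS1 hrep
    have h1 : ∀ η : Finset Edg, ∃ c C : ℝ, η ∈ S → 0 ≤ c ∧
        (∀ᶠ n : ℕ in atTop, |PPm m1 η (loc m1 H D) B n / Y n - c| ≤ C * (n:ℝ)^(-α)) ∧
        ((∃ᶠ n : ℕ in atTop, 0 < PPm m1 η (loc m1 H D) B n) → 0 < c) := by
      intro η
      by_cases hη : η ∈ S
      · obtain ⟨c, hc0, hcT, hcp⟩ := hR (ι := ℕ) (l := atTop) (fun _ => D) (fun n => (n : ℤ)) hO m1
          (by omega) η (boxE m1) H Set.univ B {v | inB m1 v} (hS1 η hη)
          subset_rfl hB (fun v hv => hv) hYpos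
        obtain ⟨C, hC⟩ := rate_abs (X := fun n : ℕ => PPm m1 η (loc m1 H D) B n) (Y := Y)
          (T := 200 * m1) ht0 ht1 (le_max_left _ _) hα1 hα0 (by
            intro K n1 n2 h1 h2
            refine hS K m1 (100 * 64 ^ K * m1) η (boxE m1) (loc m1 H D) (loc m1 H D)
              (loc m1 Set.univ D) (loc m1 Set.univ D) B {v | inB m1 v} n1 n2 (by omega) (by omega)
              (hS1 η hη) subset_rfl hB (fun v hv => hv) le_rfl (fun _ _ => ⟨Iff.rfl, Iff.rfl⟩) ?_ ?_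
              ?_ ?_
            · intro e he
              exact ⟨(loc_out he).trans (loc_out he).symm, (loc_out he).trans (loc_out he).symm⟩
            · intro e _ he
              exact loc_out he
            · have : 2 * (100 * 64 ^ K * m1) < n1 := by
                calc 2 * (100 * 64 ^ K * m1) = 200 * m1 * 64 ^ K := by ring
                  _ < n1 := h1
              exact_mod_cast this
            · have : 2 * (100 * 64 ^ K * m1) < n2 := by
                calc 2 * (100 * 64 ^ K * m1) = 200 * m1 * 64 ^ K := by ring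
                  _ < n2 := h2
              exact_mod_cast this)
          (fun n => (hP.1 _ _ _ _ _).1) hYpos hcT hc0
        exact ⟨c, C, fun _ => ⟨hc0, hC, hcp⟩⟩
      · exact ⟨0, 0, fun h => absurd h hη⟩
    choose c C hc using h1
    refine ⟨∑ η ∈ S, w * c η, ∑ η ∈ S, w * C η,
      Finset.sum_nonneg fun η hη => mul_nonneg hw0.le (hc η hη).1, ?_, ?_⟩
    · have h2 : ∀ᶠ n : ℕ in atTop, ∀ η ∈ S,
          |PPm m1 η (loc m1 H D) B n / Y n - c η| ≤ C η * (n:ℝ)^(-α) := by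
        rw [Filter.eventually_all_finset]
        exact fun η hη => (hc η hη).2.1
      filter_upwards [h2] with n hn
      have h3 : PE k V H B n / Y n - ∑ η ∈ S, w * c η =
          ∑ η ∈ S, w * (PPm m1 η (loc m1 H D) B n / Y n - c η) := by
        rw [hrep n, Finset.sum_div, ← Finset.sum_sub_distrib]
        exact Finset.sum_congr rfl fun η _ => by ring
      rw [h3, Finset.sum_mul]
      refine (Finset.abs_sum_le_sum_abs _ _).trans (Finset.sum_le_sum fun η hη => ?_)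
      rw [abs_mul, abs_of_pos hw0, mul_assoc]
      exact mul_le_mul_of_nonneg_left (hn η hη) hw0.le
    · intro hfr
      have h3 : ∃ η ∈ S, ∃ᶠ n : ℕ in atTop, 0 < PPm m1 η (loc m1 H D) B n := by
        by_contra hcon
        push Not at hcon
        have h4 : ∀ᶠ n : ℕ in atTop, ∀ η ∈ S, ¬ 0 < PPm m1 η (loc m1 H D) B n := by
          rw [Filter.eventually_all_finset]
          intro η hη
          exact (hcon η hη).mono fun x hx => not_lt.mpr hx
        obtain ⟨n, h5, h6⟩ := (hfr.and_eventually h4).exists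
        rw [hrep n] at h5
        have h8 : ∑ η ∈ S, w * PPm m1 η (loc m1 H D) B n ≤ 0 :=
          Finset.sum_nonpos fun η hη =>
            mul_nonpos_of_nonneg_of_nonpos hw0.le (not_lt.mp (h6 η hη))
        linarith
      obtain ⟨η, hη, h4⟩ := h3
      exact Finset.sum_pos' (fun η hη => mul_nonneg hw0.le (hc η hη).1)
        ⟨η, hη, mul_pos hw0 ((hc η hη).2.2 h4)⟩
  obtain ⟨a, C1, ha0, haT, -⟩ := lim m W A G T hA1 hT1 hT2
  obtain ⟨b, C2, hb0, hbT, hbp⟩ := lim m' W' A' G' T' hA1' hT1' hT2'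
  have hb : 0 < b := hbp hY'.frequently
  refine ⟨a / b, (C1 * b + a * C2) * (2 / b ^ 2), ?_⟩
  -- the denominator is at least `b / 2`
  have hsmall : ∀ᶠ n : ℕ in atTop, C2 * (n:ℝ)^(-α) ≤ b / 2 := by
    have h1 : Tendsto (fun n : ℕ => C2 * (n:ℝ)^(-α)) atTop (𝓝 (C2 * 0)) :=
      ((tendsto_rpow_neg_atTop hα0).comp tendsto_natCast_atTop_atTop).const_mul C2
    rw [mul_zero] at h1
    exact (h1.eventually (gt_mem_nhds (half_pos hb))).mono fun _ h => le_of_lt h
  filter_upwards [haT, hbT, hYpos, hsmall] with n h1 h2 h3 h4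
  set x := PE m W G A n / Y n with hx
  set y := PE m' W' G' A' n / Y n with hy
  have hq : PE m W G A n / PE m' W' G' A' n = x / y := by
    rw [hx, hy, div_div_div_cancel_right₀ h3.ne']
  rw [hq]
  have hyb : b / 2 ≤ y := by
    have := (abs_le.1 h2).1
    linarith
  have hy0 : 0 < y := lt_of_lt_of_le (half_pos hb) hyb
  have h5 : x / y - a / b = ((x - a) * b - a * (y - b)) / (y * b) := by
    field_simp
    ring
  rw [h5, abs_div, abs_of_pos (mul_pos hy0 hb)]
  have h6 : |(x - a) * b - a * (y - b)| ≤ (C1 * b + a * C2) * (n:ℝ)^(-α) := by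
    calc |(x - a) * b - a * (y - b)| ≤ |(x - a) * b| + |a * (y - b)| := abs_sub _ _
      _ = |x - a| * b + a * |y - b| := by rw [abs_mul, abs_mul, abs_of_pos hb, abs_of_nonneg ha0]
      _ ≤ (C1 * (n:ℝ)^(-α)) * b + a * (C2 * (n:ℝ)^(-α)) := by gcongr
      _ = _ := by ring
  have h7 : (b / 2) * b ≤ y * b := mul_le_mul_of_nonneg_right hyb hb.le
  have h8 : 0 ≤ (C1 * b + a * C2) * (n:ℝ)^(-α) := (abs_nonneg _).trans h6
  calc |(x - a) * b - a * (y - b)| / (y * b)
      ≤ ((C1 * b + a * C2) * (n:ℝ)^(-α)) / ((b / 2) * b) := by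
        gcongr
    _ = _ := by
        field_simp

end Pool.Agent.U394.SA
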