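import Pool.Agent.U167.SA.Stm4
import Pool.Agent.U578.SA.KEY

/-!
Project SA (helper167), package KEYW: the mixed configuration has the arm, rough boundaries.
-/

set_option autoImplicit false

namespace Pool.Agent.U394.SA

open H974 Pool.Agent.U167.SA Pool.Agent.U578.SA

theorem t_KEYW (h : UniStmW) : KeyStmW := by
  intro s0 w0 hw0 hlip s hs hs0 Gi Go Gm hGi hGo hGm A B hA hB n n' hn hn' F F' hQ hHi hHo
  set X := mix (boxE (16*s)) F F' with hX
  obtain ⟨hB1, hB2, hR⟩ := hQ
  have hs' : (0:ℤ) < s := by exact_mod_cast hs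
  have hs0' : (s0:ℤ) ≤ s := by exact_mod_cast hs0
  have hwle : ∀ h : ℤ, w0 h ≤ s := fun h => (le_abs_self _).trans ((hw0 h).trans hs0')
  -- the hubs
  obtain ⟨z1, hz1⟩ := h (4*s) w0 (by omega)
    (by intro t; have := hw0 t; push_cast; omega)
    (by intro t ht; refine hlip t ?_; push_cast at ht; omega) X Gm
    (by
      intro e he he'
      apply hGm e
      · exact boxE_mono (by omega) he
      · intro h'
        exact he' (boxE_mono (by omega) h')) hB1
  obtain ⟨z2, hz2⟩ := h (20*s) w0 (by omega)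
    (by intro t; have := hw0 t; push_cast; omega)
    (by intro t ht; refine hlip t ?_; push_cast at ht; omega) X Gm
    (by
      intro e he he'
      apply hGm e
      · exact boxE_mono (by omega) he
      · intro h'
        exact he' (boxE_mono (by omega) h')) hB2
  have e1 : 4 * (4 * s) = 16 * s := by ring
  have e2 : 4 * (20 * s) = 80 * s := by ring
  rw [e1] at hz1
  rw [e2] at hz2
  have mono : ∀ (k : ℕ) (x y : Vtx), Reach (↑X ∩ Gm ∩ ↑(boxE k)) x y → Reach (↑X ∩ Gm) x y :=
    fun k x y hr => hr.mono Set.inter_subset_left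
  -- the inner arm
  obtain ⟨u, huA, v, hv, huv⟩ := hHi
  have hu := hA u huA
  have r1 : Reach (↑X ∩ Gm) u z1 := by
    obtain ⟨w, hw, hr⟩ := exit_box (r := 16*s) (inB_mono (by omega) hu) huv
      (col_out (by rw [hv]; push_cast; omega))
    apply mono (16*s)
    apply hz1 u w (inB_mono (by omega) hu) hw
    apply hr.mono
    rintro e ⟨⟨h1, h2⟩, h3⟩
    have h3' : e ∈ boxE (16*s) := h3
    refine ⟨⟨?_, (hGi e h3').mp h2⟩, h3⟩
    have h1' : e ∈ F := h1
    show e ∈ mix (boxE (16*s)) F F'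
    simp only [mix, Finset.mem_union, Finset.mem_inter, Finset.mem_sdiff]
    exact Or.inl ⟨h1', h3'⟩
  -- the radial crossing
  obtain ⟨y, y', hy, hy', hrad⟩ := hR
  have hradJ : Reach (↑X ∩ Gm) ((0:ℤ), y) ((80*s+1 : ℤ), y') := by
    apply hrad.mono
    rintro e ⟨h1, h2⟩
    refine ⟨h1, ?_⟩
    have h2' : e ∈ LRE 0 (80*s+1) (-(3*s)) (-(2*s)) := h2
    obtain ⟨x0, y0, _ | _⟩ := e
    · rw [mem_LRE_false] at h2'
      refine (hGm _ ?_ ?_).mpr ?_
      · simp only [boxE, mem_RE_false]; push_cast; omega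
      · simp only [boxE, mem_RE_false]
        omega
      · simp only [Dw, Set.mem_ofPred_eq, src_mk, tgt_false, col, ht]
        exact ⟨(hwle _).trans (by omega), (hwle _).trans (by omega)⟩
    · rw [mem_LRE_true] at h2'
      refine (hGm _ ?_ ?_).mpr ?_
      · simp only [boxE, mem_RE_true]; push_cast; omega
      · simp only [boxE, mem_RE_true]
        omega
      · simp only [Dw, Set.mem_ofPred_eq, src_mk, tgt_true, col, ht]
        exact ⟨(hwle _).trans (by omega), (hwle _).trans (by omega)⟩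
  have hr0 : inB (4*s-1) ((0:ℤ), y) := by
    simp only [inB, inR]
    push_cast [Nat.cast_sub (show 1 ≤ 4*s by omega)]
    omega
  have r2 : Reach (↑X ∩ Gm) ((0:ℤ), y) z1 := by
    obtain ⟨w, hw, hr⟩ := exit_box (r := 16*s) (inB_mono (by omega) hr0) hradJ
      (by right; left; push_cast; omega)
    exact mono (16*s) _ _ (hz1 _ w hr0 hw hr)
  have r3 : Reach (↑X ∩ Gm) ((0:ℤ), y) z2 := by
    obtain ⟨w, hw, hr⟩ := exit_box (r := 80*s) (inB_mono (by omega) hr0) hradJ
      (by right; left; push_cast; omega)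
    exact mono (80*s) _ _ (hz2 _ w (inB_mono (by omega) hr0) hw hr)
  -- the outer arm
  obtain ⟨u', huB, v', hv', huv'⟩ := hHo
  have hu' := hB u' huB
  obtain ⟨w3, hw3, hr3⟩ := last_exit (r := 20*s-1) (inB_mono (by omega) hu') huv'
  have r4 : Reach (↑X ∩ Gm) w3 v' := by
    apply hr3.mono
    rintro e ⟨⟨h1, h2⟩, h3⟩
    have h3' : e ∉ boxE (16*s) := fun h4 => h3 (by
      have := boxE_mono (show 16*s ≤ 20*s-1 by omega) h4
      exact this)
    refine ⟨?_, (hGo e h3').mp h2⟩
    have h1' : e ∈ F' := h1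
    show e ∈ mix (boxE (16*s)) F F'
    simp only [mix, Finset.mem_union, Finset.mem_inter, Finset.mem_sdiff]
    exact Or.inr ⟨h1', h3'⟩
  have r5 : Reach (↑X ∩ Gm) w3 z2 := by
    obtain ⟨w, hw, hr⟩ := exit_box (r := 80*s) (inB_mono (by omega) hw3) r4
      (col_out (by rw [hv']; push_cast; omega))
    exact mono (80*s) _ _ (hz2 _ w hw3 hw hr)
  exact ⟨u, huA, v', hv', (((r1.trans r2.symm).trans r3).trans r5.symm).trans r4⟩

end Pool.Agent.U394.SA
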