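import Pool.Agent.U167.SA.Stm6
import Pool.Agent.U566.SA.EX2

/-! Project SA, package REFH: error term of the exact half-plane formula. -/

set_option autoImplicit false

namespace Pool.Agent.U394.SA

open Finset Filter Topology Pool.Agent.U167.SA Pool.Agent.H988R2.Perc

/-- `L * armFormula L ^ 3` -/
noncomputable def gg (L : ℕ) : ℝ := (L:ℝ) * armFormula L ^ 3

lemma arm_pos (L : ℕ) : 0 < armFormula L := by
  unfold armFormula
  have : 0 < ∏ j ∈ range L, (3 * (j:ℝ) + 1) / (3 * (j:ℝ) + 2) :=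
    Finset.prod_pos fun j _ => by positivity
  positivity

lemma arm_succ (L : ℕ) : armFormula (L+1) * ((2*(L:ℝ)+3)*(3*L+2)) =
    armFormula L * ((3*(L:ℝ)+4)*(2*L+1)) := by
  unfold armFormula
  rw [Finset.prod_range_succ]
  push_cast
  have h1 : 2 * ((L:ℝ) + 1) + 1 ≠ 0 := by positivity
  have h2 : 2 * (L:ℝ) + 1 ≠ 0 := by positivity
  have h3 : 3 * (L:ℝ) + 2 ≠ 0 := by positivity
  field_simp
  ring

lemma gg_pos {L : ℕ} (hL : 1 ≤ L) : 0 < gg L := by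
  unfold gg
  have h1 : (0:ℝ) < L := by exact_mod_cast hL
  have := arm_pos L
  positivity

lemma gg_step (L : ℕ) : gg (L+1) * ((L:ℝ) * ((2*(L:ℝ)+3)*(3*L+2))^3) =
    gg L * (((L:ℝ)+1) * ((3*(L:ℝ)+4)*(2*L+1))^3) := by
  unfold gg
  push_cast
  calc ((L:ℝ)+1) * armFormula (L+1) ^ 3 * ((L:ℝ) * ((2*(L:ℝ)+3)*(3*L+2))^3)
      = ((L:ℝ)+1) * L * (armFormula (L+1) * ((2*(L:ℝ)+3)*(3*L+2)))^3 := by ring
    _ = ((L:ℝ)+1) * L * (armFormula L * ((3*(L:ℝ)+4)*(2*L+1)))^3 := by rw [arm_succ]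
    _ = _ := by ring

lemma gg_mono {L : ℕ} (hL : 1 ≤ L) : gg L ≤ gg (L+1) := by
  have hx : (0:ℝ) < L := by exact_mod_cast hL
  have hg := gg_pos hL
  have hD : (0:ℝ) < (L:ℝ) * ((2*(L:ℝ)+3)*(3*L+2))^3 := by positivity
  have hN : (L:ℝ) * ((2*(L:ℝ)+3)*(3*L+2))^3 ≤ ((L:ℝ)+1) * ((3*(L:ℝ)+4)*(2*L+1))^3 := by
    have e : ((L:ℝ)+1) * ((3*(L:ℝ)+4)*(2*L+1))^3 - (L:ℝ) * ((2*(L:ℝ)+3)*(3*L+2))^3 =
        64 + 376 * L + 864 * L^2 + 965 * L^3 + 520 * L^4 + 108 * (L:ℝ)^5 := by ring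
    have : (0:ℝ) ≤ 64 + 376 * L + 864 * L^2 + 965 * L^3 + 520 * L^4 + 108 * (L:ℝ)^5 := by
      positivity
    linarith
  have h1 := gg_step L
  refine le_of_mul_le_mul_right ?_ hD
  rw [h1]
  exact mul_le_mul_of_nonneg_left hN hg.le

lemma gg_up {L : ℕ} (hL : 1 ≤ L) : gg (L+1) * ((L:ℝ) * (L+1)) ≤ gg L * (1 + (L:ℝ) * (L+1)) := by
  have hx : (0:ℝ) < L := by exact_mod_cast hL
  have hg := gg_pos hL
  have hD : (0:ℝ) < (L:ℝ) * ((2*(L:ℝ)+3)*(3*L+2))^3 := by positivity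
  have hN : ((L:ℝ) * (L+1)) * (((L:ℝ)+1) * ((3*(L:ℝ)+4)*(2*L+1))^3) ≤
      (1 + (L:ℝ) * (L+1)) * ((L:ℝ) * ((2*(L:ℝ)+3)*(3*L+2))^3) := by
    have e : (1 + (L:ℝ) * (L+1)) * ((L:ℝ) * ((2*(L:ℝ)+3)*(3*L+2))^3) -
        ((L:ℝ) * (L+1)) * (((L:ℝ)+1) * ((3*(L:ℝ)+4)*(2*L+1))^3) =
        152 * L + 964 * L^2 + 2450 * L^3 + 3176 * L^4 + 2205 * L^5 + 776 * L^6 +
          108 * (L:ℝ)^7 := by ring
    have : (0:ℝ) ≤ 152 * L + 964 * L^2 + 2450 * L^3 + 3176 * L^4 + 2205 * L^5 + 776 * L^6 +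
          108 * (L:ℝ)^7 := by positivity
    linarith
  refine le_of_mul_le_mul_right ?_ hD
  calc gg (L+1) * ((L:ℝ) * (L+1)) * ((L:ℝ) * ((2*(L:ℝ)+3)*(3*L+2))^3)
      = ((L:ℝ) * (L+1)) * (gg (L+1) * ((L:ℝ) * ((2*(L:ℝ)+3)*(3*L+2))^3)) := by ring
    _ = gg L * (((L:ℝ) * (L+1)) * (((L:ℝ)+1) * ((3*(L:ℝ)+4)*(2*L+1))^3)) := by
        rw [gg_step]; ring
    _ ≤ gg L * ((1 + (L:ℝ) * (L+1)) * ((L:ℝ) * ((2*(L:ℝ)+3)*(3*L+2))^3)) :=
        mul_le_mul_of_nonneg_left hN hg.le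
    _ = _ := by ring

/-- The constant. -/
noncomputable def cc : ℝ := 9 / 4 * Real.Gamma (2/3) / Real.Gamma (1/3)

lemma cc_pos : 0 < cc := by
  unfold cc
  have h1 : 0 < Real.Gamma (2/3) := Real.Gamma_pos_of_pos (by norm_num)
  have h2 : 0 < Real.Gamma (1/3) := Real.Gamma_pos_of_pos (by norm_num)
  positivity

lemma cube_rt (n : ℕ) : ((n:ℝ)^((1:ℝ)/3))^3 = n := by
  rw [← Real.rpow_natCast, ← Real.rpow_mul (Nat.cast_nonneg n)]
  norm_num

lemma gg_tendsto : Tendsto gg atTop (𝓝 (cc^3)) := by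
  have h := armFormula_tendsto.pow 3
  refine h.congr fun L => ?_
  rw [mul_pow, cube_rt]
  rfl

lemma gg_le {L : ℕ} (hL : 1 ≤ L) : gg L ≤ cc^3 := by
  have hm : Monotone fun k : ℕ => gg (k+1) := monotone_nat_of_le_succ fun k => gg_mono (by omega)
  have ht : Tendsto (fun k : ℕ => gg (k+1)) atTop (𝓝 (cc^3)) :=
    gg_tendsto.comp (tendsto_add_atTop_nat 1)
  have := hm.ge_of_tendsto ht (L-1)
  simpa [Nat.sub_add_cancel hL] using this

lemma gg_ge {L : ℕ} (hL : 1 ≤ L) : cc^3 ≤ gg L + cc^3 / L := by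
  have hm : Antitone fun k : ℕ => gg (k+1) + cc^3 / ((k+1 : ℕ) : ℝ) := by
    refine antitone_nat_of_succ_le fun k => ?_
    have h1 := gg_up (L := k+1) (by omega)
    have h2 := gg_le (L := k+1) (by omega)
    have hc : 0 < cc^3 := pow_pos cc_pos 3
    set x : ℝ := ((k+1 : ℕ) : ℝ) with hx
    have hx0 : 0 < x := by rw [hx]; positivity
    have e : ((k+1+1 : ℕ) : ℝ) = x + 1 := by rw [hx]; push_cast; ring
    rw [e]
    have h3 : gg (k+1+1) - gg (k+1) ≤ cc^3 / (x * (x+1)) := by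
      rw [le_div_iff₀ (by positivity)]
      have : (gg (k+1+1) - gg (k+1)) * (x * (x+1)) ≤ gg (k+1) := by
        have := h1
        linarith [this, (by ring : (gg (k+1+1) - gg (k+1)) * (x * (x+1)) =
          gg (k+1+1) * (x * (x+1)) - gg (k+1) * (1 + x * (x+1)) + gg (k+1))]
      linarith
    have h4 : cc^3 / x - cc^3 / (x+1) = cc^3 / (x * (x+1)) := by
      field_simp
      ring
    linarith
  have ht : Tendsto (fun k : ℕ => gg (k+1) + cc^3 / ((k+1 : ℕ) : ℝ)) atTop (𝓝 (cc^3 + 0)) := by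
    refine (gg_tendsto.comp (tendsto_add_atTop_nat 1)).add ?_
    exact (tendsto_const_div_atTop_nhds_zero_nat (cc^3)).comp (tendsto_add_atTop_nat 1)
  rw [add_zero] at ht
  have := hm.le_of_tendsto ht (L-1)
  simpa [Nat.sub_add_cancel hL] using this

/-- **REFH** -/
theorem t_REFH (h : PercStm) (hb : PPBStm) : RefHStm := by
  obtain ⟨hb1, -, -, -, hb2, -, -⟩ := hb
  refine ⟨2 * cc, fun n hn => ?_⟩
  change |_ * _ - cc| ≤ _
  set P : ℕ → ℝ := fun n => PP (Dm 0 0) {((1:ℤ), (0:ℤ))} n with hP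
  have hPo : ∀ n : ℕ, Odd n → P n = armFormula n := fun n hn => by
    rw [hP]
    dsimp only
    rw [Pool.Agent.U566.SA.half_pp h, arm_prob n hn]
  have hPm : ∀ n n' : ℕ, 1 ≤ n → n ≤ n' → P n' ≤ P n := by
    intro n n' h1 h2
    refine hb2 _ _ _ _ ?_ (by exact_mod_cast h2)
    intro v hv
    obtain rfl : v = ((1:ℤ), (0:ℤ)) := hv
    have : col ((1:ℤ), (0:ℤ)) = 1 := by simp [col]
    rw [this]
    exact_mod_cast h1
  have hP0 : ∀ n : ℕ, 0 ≤ P n := fun n => (hb1 _ _ _).1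
  have hc := cc_pos
  have hx : (0:ℝ) < n := by exact_mod_cast hn
  have hx1 : (1:ℝ) ≤ n := by exact_mod_cast hn
  have hT : 0 < cc^3 := pow_pos hc 3
  -- the cube
  have key : |(n:ℝ) * P n ^ 3 - cc^3| ≤ 2 * cc^3 / n := by
    rcases Nat.even_or_odd n with he | ho
    · -- even
      have hn2 : 2 ≤ n := by
        obtain ⟨k, hk⟩ := he
        omega
      have hx2 : (2:ℝ) ≤ n := by exact_mod_cast hn2
      obtain ⟨m, rfl⟩ : ∃ m, n = m + 1 := ⟨n - 1, by omega⟩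
      have hm1 : 1 ≤ m := by omega
      have hmo : Odd m := by
        rcases Nat.even_or_odd m with h1 | h1
        · exact absurd he (by simpa [Nat.even_add_one] using h1)
        · exact h1
      have hm2 : Odd (m+2) := by
        obtain ⟨k, hk⟩ := hmo
        exact ⟨k+1, by omega⟩
      have hy : (0:ℝ) < m := by exact_mod_cast hm1
      have hy1 : (1:ℝ) ≤ m := by exact_mod_cast hm1
      have u1 : P (m+1) ≤ armFormula m := by
        rw [← hPo m hmo]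
        exact hPm m (m+1) hm1 (by omega)
      have l1 : armFormula (m+2) ≤ P (m+1) := by
        rw [← hPo (m+2) hm2]
        exact hPm (m+1) (m+2) (by omega) (by omega)
      have g1 := gg_le hm1
      have g2 := gg_ge (L := m+2) (by omega)
      have u2 : P (m+1) ^ 3 ≤ armFormula m ^ 3 := pow_le_pow_left₀ (hP0 _) u1 3
      have l2 : armFormula (m+2) ^ 3 ≤ P (m+1) ^ 3 := pow_le_pow_left₀ (arm_pos _).le l1 3
      unfold gg at g1 g2
      push_cast at g1 g2 hx ⊢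
      have g1' : armFormula m ^ 3 ≤ cc^3 / m := by
        rw [le_div_iff₀ hy]
        linarith [mul_comm (m:ℝ) (armFormula m ^ 3)]
      have g2' : cc^3 * ((m:ℝ)+1) / ((m+2) * (m+2)) ≤ armFormula (m+2) ^ 3 := by
        rw [div_le_iff₀ (by positivity)]
        have e : cc^3 / ((m:ℝ)+2) * (m+2) = cc^3 := by field_simp
        have h5 := mul_le_mul_of_nonneg_right g2 (by positivity : (0:ℝ) ≤ (m:ℝ) + 2)
        rw [add_mul, e] at h5
        nlinarith [h5]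
      rw [abs_le]
      constructor
      · -- lower bound
        have h6 : ((m:ℝ)+1) * (cc^3 * ((m:ℝ)+1) / ((m+2) * (m+2))) ≤ ((m:ℝ)+1) * P (m+1) ^ 3 :=
          mul_le_mul_of_nonneg_left (g2'.trans l2) (by positivity)
        have h7 : cc^3 - 2 * cc^3 / ((m:ℝ)+1) ≤
            ((m:ℝ)+1) * (cc^3 * ((m:ℝ)+1) / ((m+2) * (m+2))) := by
          have e1 : ((m:ℝ)+1) * (cc^3 * ((m:ℝ)+1) / ((m+2) * (m+2))) -
              (cc^3 - 2 * cc^3 / ((m:ℝ)+1)) =
              cc^3 * (3 * m + 5 + 0 * (m:ℝ)) / (((m:ℝ)+1) * ((m+2) * (m+2))) := by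
            field_simp
            ring
          have e2 : 0 ≤ cc^3 * (3 * m + 5 + 0 * (m:ℝ)) / (((m:ℝ)+1) * ((m+2) * (m+2))) := by
            positivity
          linarith
        linarith
      · have h6 : ((m:ℝ)+1) * P (m+1) ^ 3 ≤ ((m:ℝ)+1) * (cc^3 / m) :=
          mul_le_mul_of_nonneg_left (u2.trans g1') (by positivity)
        have h7 : ((m:ℝ)+1) * (cc^3 / m) ≤ cc^3 + 2 * cc^3 / ((m:ℝ)+1) := by
          have e1 : cc^3 + 2 * cc^3 / ((m:ℝ)+1) - ((m:ℝ)+1) * (cc^3 / m) =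
              cc^3 * (m - 1) / (m * (m+1)) := by
            field_simp
            ring
          have e2 : 0 ≤ cc^3 * ((m:ℝ) - 1) / (m * (m+1)) := by
            have : (0:ℝ) ≤ m - 1 := by linarith
            positivity
          linarith
        linarith
    · have e : (n:ℝ) * P n ^ 3 = gg n := by
        rw [hPo n ho]
        rfl
      rw [e, abs_le]
      have g1 := gg_le hn
      have g2 := gg_ge hn
      have e1 : 2 * cc^3 / (n:ℝ) = 2 * (cc^3 / n) := by ring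
      have e2 : 0 < cc^3 / (n:ℝ) := by positivity
      rw [e1]
      constructor <;> linarith
  -- the cube root
  set y : ℝ := P n * (n:ℝ)^((1:ℝ)/3) with hy
  have hy0 : 0 ≤ y := mul_nonneg (hP0 n) (by positivity)
  have hy3 : y^3 = (n:ℝ) * P n ^ 3 := by
    rw [hy, mul_pow, cube_rt]
    ring
  rw [← hy3] at key
  have h1 : |y - cc| * cc^2 ≤ |y^3 - cc^3| := by
    have e : y^3 - cc^3 = (y - cc) * (y^2 + y*cc + cc^2) := by ring
    rw [e, abs_mul]
    refine mul_le_mul_of_nonneg_left ?_ (abs_nonneg _)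
    rw [abs_of_nonneg (by positivity)]
    have : 0 ≤ y^2 + y*cc := by positivity
    linarith
  have h2 : |y - cc| * cc^2 ≤ (2 * cc / n) * cc^2 := by
    refine (h1.trans key).trans (le_of_eq ?_)
    ring
  exact le_of_mul_le_mul_right h2 (by positivity)

end Pool.Agent.U394.SA
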